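import Pool.Agent.Run7.h889.Iface

set_option autoImplicit false
set_option linter.unusedSimpArgs false
set_option linter.unusedVariables false
set_option linter.unusedSectionVars false
set_option linter.deprecated false

namespace Run7.h892.P889

open Run7.h889 IsLocalRing

universe u v

/-- `F^E_* R` -/
def Fs (p E : ℕ) (R : Type u) : Type u := R

instance (p E : ℕ) (R : Type u) [CommRing R] : AddCommGroup (Fs p E R) :=
  inferInstanceAs (AddCommGroup R)

instance instModFs (p E : ℕ) [Fact p.Prime] (R : Type u) [CommRing R] [CharP R p] :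
    Module R (Fs p E R) :=
  Module.compHom R (iterateFrobenius R p E)

/-- the tautological map -/
def toFs (p E : ℕ) (R : Type u) [CommRing R] : R →+ Fs p E R := AddMonoidHom.id R

/-- the tautological map -/
def ofFs (p E : ℕ) (R : Type u) [CommRing R] : Fs p E R →+ R := AddMonoidHom.id R

section

variable {p E : ℕ} [hp : Fact p.Prime] {R : Type u} [CommRing R] [CharP R p]

omit hp [CharP R p] in
@[simp] lemma of_to (x : R) : ofFs p E R (toFs p E R x) = x := rfl

omit hp [CharP R p] in
@[simp] lemma to_of (x : Fs p E R) : toFs p E R (ofFs p E R x) = x := rfl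

lemma smul_Fs (a : R) (x : R) : a • toFs p E R x = toFs p E R (a ^ p ^ E * x) := by
  change iterateFrobenius R p E a * x = _
  rw [iterateFrobenius_def]
  rfl

lemma of_smul (a : R) (x : Fs p E R) : ofFs p E R (a • x) = a ^ p ^ E * ofFs p E R x := by
  exact congrArg (ofFs p E R) (smul_Fs (E := E) a (ofFs p E R x))

/-- a semilinear map as a linear map -/
def mkLin {N : Type v} [AddCommGroup N] [Module R N] (χ : R →+ N)
    (h : ∀ a x, χ (a ^ p ^ E * x) = a • χ x) : Fs p E R →ₗ[R] N where
  toFun x := χ (ofFs p E R x)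
  map_add' x y := by rw [map_add, map_add]
  map_smul' a x := by rw [of_smul, h]; rfl

/-- a linear map as an element of `FHom` -/
def mkHom (f : Fs p E R →ₗ[R] R) : FHom p E R :=
  ⟨f.toAddMonoidHom.comp (toFs p E R), by
    intro a x
    change f (toFs p E R (a ^ p ^ E * x)) = a * f (toFs p E R x)
    rw [← smul_Fs, map_smul]; rfl⟩

lemma mkHom_apply (f : Fs p E R →ₗ[R] R) (x : R) : (mkHom f).1 x = f (toFs p E R x) := rfl

lemma finite_Fs (h : IsFFinite p R) : Module.Finite R (Fs p 1 R) := by
  classical
  obtain ⟨s, hs⟩ := h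
  refine ⟨⟨s.image (toFs p 1 R), ?_⟩⟩
  rw [eq_top_iff]
  intro x _
  obtain ⟨a, ha⟩ := hs (ofFs p 1 R x)
  have : x = ∑ y ∈ s, a y • toFs p 1 R y := by
    have h1 : x = toFs p 1 R (ofFs p 1 R x) := rfl
    rw [h1, ha, map_sum]
    apply Finset.sum_congr rfl
    intro y _
    rw [smul_Fs, pow_one]
  rw [this]
  apply Submodule.sum_mem
  intro y hy
  apply Submodule.smul_mem
  apply Submodule.subset_span
  rw [Finset.coe_image]
  exact ⟨y, hy, rfl⟩

/-- semilinear maps into a flat algebra are combinations of elements of `FHom p 1 R` -/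
theorem exists_fac [IsNoetherianRing R] (h : IsFFinite p R) {S : Type v} [CommRing S]
    [Algebra R S] [Module.Flat R S] (χ : R →+ S)
    (hχ : ∀ a x, χ (a ^ p * x) = algebraMap R S a * χ x) :
    ∃ (k : ℕ) (g : Fin k → FHom p 1 R) (c : Fin k → S),
      ∀ x, χ x = ∑ i, c i * algebraMap R S ((g i).1 x) := by
  classical
  have := finite_Fs h
  have : Module.FinitePresentation R (Fs p 1 R) := Module.finitePresentation_of_finite R _
  obtain ⟨k, h2, h3, h4⟩ := Module.Flat.exists_factorization_of_finitePresentation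
    (R := R) (M := S) (P := Fs p 1 R) (mkLin χ (by
      intro a x
      rw [pow_one, hχ, Algebra.smul_def]))
  refine ⟨k, fun i => mkHom ((Finsupp.lapply i).comp h2), fun i => h3 (Finsupp.single i 1),
    fun x => ?_⟩
  have h5 : χ x = h3 (h2 (toFs p 1 R x)) := by
    have := LinearMap.congr_fun h4 (toFs p 1 R x)
    exact this
  rw [h5]
  conv_lhs => rw [← Finsupp.univ_sum_single (h2 (toFs p 1 R x))]
  rw [map_sum]
  apply Finset.sum_congr rfl
  intro i _
  rw [mkHom_apply]
  have : Finsupp.single i (h2 (toFs p 1 R x) i) =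
      (h2 (toFs p 1 R x) i) • (Finsupp.single i (1 : R)) := by
    rw [Finsupp.smul_single, smul_eq_mul, mul_one]
  rw [this, map_smul, Algebra.smul_def, mul_comm]
  rfl

end

end Run7.h892.P889
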