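import Pool.Agent.Run7.h892.P889.Base

set_option autoImplicit false
set_option linter.unusedSimpArgs false
set_option linter.unusedVariables false
set_option linter.unusedSectionVars false
set_option linter.deprecated false

namespace Run7.h892.P889

open Run7.h889 IsLocalRing Polynomial

universe u v

section loc

variable {p E : ℕ} [hp : Fact p.Prime] {A B : Type u} [CommRing A] [IsDomain A] [CommRing B]
  [Algebra A B] (M : Submonoid A)

/-- extension to a localisation -/
theorem exists_loc (hM : M ≤ nonZeroDivisors A) [IsLocalization M B] (φ : FHom p E A) :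
    ∃ ψ : FHom p E B, ∀ a, ψ.1 (algebraMap A B a) = algebraMap A B (φ.1 a) := by
  classical
  have hdom : IsDomain B := IsLocalization.isDomain_of_le_nonZeroDivisors B hM
  have hinj : Function.Injective (algebraMap A B) := IsLocalization.injective B hM
  have hM0 : ∀ g ∈ M, algebraMap A B g ≠ 0 := by
    intro g hg h0
    have h1 : g = 0 := hinj (by rw [h0, map_zero])
    exact nonZeroDivisors.ne_zero (hM hg) h1
  obtain ⟨q', hq'⟩ : ∃ q', p ^ E = q' + 1 :=
    ⟨p ^ E - 1, (Nat.sub_add_cancel (pow_pos hp.out.pos E)).symm⟩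
  have hφ : ∀ a x, φ.1 (a ^ (q' + 1) * x) = a * φ.1 x := by
    intro a x
    have := φ.2 a x
    rwa [hq'] at this
  let P : B → B → Prop := fun x L => ∀ h g, g ∈ M → x * algebraMap A B g = algebraMap A B h →
    L * algebraMap A B g = algebraMap A B (φ.1 (h * g ^ q'))
  have hrep : ∀ x : B, ∃ h g, g ∈ M ∧ x * algebraMap A B g = algebraMap A B h := by
    intro x
    obtain ⟨⟨h, g⟩, hx⟩ := IsLocalization.surj M x
    exact ⟨h, g, g.2, hx⟩
  have hex : ∀ x, ∃ L, P x L := by
    intro x
    obtain ⟨h0, g0, hg0, hx0⟩ := hrep x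
    obtain ⟨L, hL⟩ : ∃ L, L * algebraMap A B g0 = algebraMap A B (φ.1 (h0 * g0 ^ q')) :=
      ⟨IsLocalization.mk' B (φ.1 (h0 * g0 ^ q')) ⟨g0, hg0⟩, IsLocalization.mk'_spec B _ _⟩
    refine ⟨L, fun h g hg hx => ?_⟩
    have h1 : h0 * g = h * g0 := by
      apply hinj
      rw [map_mul, map_mul, ← hx0, ← hx]
      ring
    apply mul_right_cancel₀ (hM0 g0 hg0)
    have h2 : L * algebraMap A B g * algebraMap A B g0 =
        algebraMap A B (g * φ.1 (h0 * g0 ^ q')) := by
      rw [(algebraMap A B).map_mul, ← hL]; ring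
    have h3 : algebraMap A B (φ.1 (h * g ^ q')) * algebraMap A B g0 =
        algebraMap A B (g0 * φ.1 (h * g ^ q')) := by
      rw [(algebraMap A B).map_mul]; ring
    rw [h2, h3, ← hφ, ← hφ]
    congr 2
    have h4 : g ^ (q' + 1) * (h0 * g0 ^ q') = h0 * g * (g ^ q' * g0 ^ q') := by ring
    have h5 : g0 ^ (q' + 1) * (h * g ^ q') = h * g0 * (g ^ q' * g0 ^ q') := by ring
    rw [h4, h5, h1]
  choose ψ hψ using hex
  have hadd : ∀ x x', ψ (x + x') = ψ x + ψ x' := by
    intro x x'
    obtain ⟨h1, g1, hg1, hx1⟩ := hrep x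
    obtain ⟨h2, g2, hg2, hx2⟩ := hrep x'
    have hG : g1 * g2 ∈ M := M.mul_mem hg1 hg2
    have e1 := hψ x (h1 * g2) (g1 * g2) hG (by rw [map_mul, map_mul, ← hx1]; ring)
    have e2 := hψ x' (h2 * g1) (g1 * g2) hG (by rw [map_mul, map_mul, ← hx2]; ring)
    have e3 := hψ (x + x') (h1 * g2 + h2 * g1) (g1 * g2) hG (by
      rw [map_add, map_mul, map_mul, map_mul, ← hx1, ← hx2]; ring)
    apply mul_right_cancel₀ (hM0 _ hG)
    rw [e3, add_mul (ψ x), e1, e2, add_mul, map_add, map_add]
  have hmul : ∀ t x, ψ (t ^ p ^ E * x) = t * ψ x := by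
    intro t x
    obtain ⟨k, g1, hg1, hx1⟩ := hrep t
    obtain ⟨h, g2, hg2, hx2⟩ := hrep x
    have e1 := hψ x h g2 hg2 hx2
    have hG : g1 ^ (q' + 1) * g2 ∈ M := M.mul_mem (M.pow_mem hg1 _) hg2
    have e2 := hψ (t ^ p ^ E * x) (k ^ (q' + 1) * h) (g1 ^ (q' + 1) * g2) hG (by
      rw [map_mul, map_mul, map_pow, map_pow, ← hx1, ← hx2, hq']; ring)
    apply mul_right_cancel₀ (hM0 _ hG)
    rw [e2]
    have h3 : k ^ (q' + 1) * h * (g1 ^ (q' + 1) * g2) ^ q' =
        (k * g1 ^ q') ^ (q' + 1) * (h * g2 ^ q') := by ring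
    rw [h3, hφ, (algebraMap A B).map_mul, ← e1, (algebraMap A B).map_mul,
      (algebraMap A B).map_mul, ← hx1, map_pow, map_pow]
    ring
  have h0 : ψ 0 = 0 := by
    have := hadd 0 0
    rw [add_zero] at this
    exact left_eq_add.1 this
  refine ⟨⟨⟨⟨ψ, h0⟩, hadd⟩, hmul⟩, fun a => ?_⟩
  have := hψ (algebraMap A B a) a 1 M.one_mem (by rw [map_one, mul_one])
  rw [map_one, mul_one, one_pow, mul_one] at this
  exact this

end loc

section poly

variable {p E : ℕ} [hp : Fact p.Prime] {R : Type u} [CommRing R] [CharP R p]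

/-- the digit map on polynomials -/
noncomputable def dig (q : ℕ) (φ : R →+ R) (f : R[X]) : R[X] :=
  ∑ j ∈ Finset.range (f.natDegree + 1), C (φ (f.coeff (q * j + (q - 1)))) * X ^ j

omit hp [CharP R p] in
lemma coeff_dig (q : ℕ) (hq : 0 < q) (φ : R →+ R) (f : R[X]) (j : ℕ) :
    (dig q φ f).coeff j = φ (f.coeff (q * j + (q - 1))) := by
  classical
  rw [dig, finset_sum_coeff]
  simp only [coeff_C_mul_X_pow]
  rw [Finset.sum_ite_eq]
  split_ifs with h
  · rfl
  · rw [Finset.mem_range, not_lt] at h
    rw [coeff_eq_zero_of_natDegree_lt, map_zero]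
    have : 1 * j ≤ q * j := Nat.mul_le_mul_right _ hq
    omega

/-- the extension to polynomials -/
theorem exists_poly (φ : FHom p E R) : ∃ ψ : FHom p E R[X],
    ∀ f j, (ψ.1 f).coeff j = φ.1 (f.coeff (p ^ E * j + (p ^ E - 1))) := by
  classical
  have hq : 0 < p ^ E := pow_pos hp.out.pos E
  refine ⟨⟨⟨⟨dig (p ^ E) φ.1, ?_⟩, ?_⟩, ?_⟩, fun f j => coeff_dig _ hq _ _ _⟩
  · ext j
    rw [coeff_dig _ hq, coeff_zero, map_zero, coeff_zero]
  · intro f g
    ext j
    change (dig (p ^ E) φ.1 (f + g)).coeff j = (dig (p ^ E) φ.1 f + dig (p ^ E) φ.1 g).coeff j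
    rw [coeff_dig _ hq, coeff_add, map_add, coeff_add, coeff_dig _ hq, coeff_dig _ hq]
  · intro a f
    change dig (p ^ E) φ.1 (a ^ p ^ E * f) = a * dig (p ^ E) φ.1 f
    induction a using Polynomial.induction_on' with
    | add a b ha hb =>
      have hadd : ∀ f g : R[X], dig (p ^ E) φ.1 (f + g) = dig (p ^ E) φ.1 f +
          dig (p ^ E) φ.1 g := by
        intro f g
        ext j
        rw [coeff_dig _ hq, coeff_add, map_add, coeff_add, coeff_dig _ hq, coeff_dig _ hq]
      rw [add_pow_char_pow, add_mul, hadd, ha, hb, add_mul]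
    | monomial n c =>
      rw [← C_mul_X_pow_eq_monomial, mul_pow, ← C_pow, ← pow_mul]
      ext j
      rw [coeff_dig _ hq, mul_assoc, mul_assoc, coeff_C_mul, coeff_C_mul, coeff_X_pow_mul',
        coeff_X_pow_mul', mul_comm n]
      by_cases h : n ≤ j
      · obtain ⟨k, rfl⟩ := Nat.exists_eq_add_of_le h
        have h1 : p ^ E * n ≤ p ^ E * (n + k) + (p ^ E - 1) := by
          have : p ^ E * n ≤ p ^ E * (n + k) := Nat.mul_le_mul_left _ (Nat.le_add_right _ _)
          omega
        have h2 : p ^ E * (n + k) + (p ^ E - 1) - p ^ E * n = p ^ E * k + (p ^ E - 1) := by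
          rw [mul_add]; omega
        rw [if_pos h1, if_pos h, h2, φ.2, Nat.add_sub_cancel_left, coeff_dig _ hq]
      · have h1 : ¬ p ^ E * n ≤ p ^ E * j + (p ^ E - 1) := by
          intro h1
          have h2 : p ^ E * (j + 1) ≤ p ^ E * n := Nat.mul_le_mul_left _ (by omega)
          rw [mul_add] at h2
          omega
        rw [if_neg h1, if_neg h, mul_zero, mul_zero, map_zero]

end poly

section main

variable {p : ℕ} [hp : Fact p.Prime] {R S : Type u} [CommRing R] [IsDomain R]
  [IsLocalRing R] [IsNoetherianRing R] [CharP R p] [CommRing S] [IsLocalRing S] [IsDomain S]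
  [Algebra R[X] S] [Algebra R S] [IsScalarTower R R[X] S] [CharP S p]

omit hp [IsNoetherianRing R] [CharP R p] [IsLocalRing S] [IsDomain S] [CharP S p] [IsLocalRing R]
  [IsDomain R] [IsScalarTower R R[X] S] in
lemma ffinite_of [Fact p.Prime] [CharP S p] (h : Module.Finite S (Fs p 1 S)) : IsFFinite p S := by
  classical
  obtain ⟨s, hs⟩ := h
  refine ⟨s.image (ofFs p 1 S), fun x => ?_⟩
  have hx : toFs p 1 S x ∈ Submodule.span S (s : Set (Fs p 1 S)) := by
    rw [hs]; trivial
  obtain ⟨f, hf, hx⟩ := Submodule.mem_span_finset.1 hx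
  refine ⟨fun y => f (toFs p 1 S y), ?_⟩
  have h1 : x = ofFs p 1 S (∑ a ∈ s, f a • a) := by rw [hx]; rfl
  rw [h1, map_sum, Finset.sum_image (g := ofFs p 1 S) (s := s) (fun a _ b _ hab => hab)]
  apply Finset.sum_congr rfl
  intro a _
  rw [of_smul, pow_one]
  rfl

/-- uniqueness -/
lemma loc_ext (M : Submonoid R[X]) [IsLocalization M S] (N : AddSubgroup S)
    (hN : ∀ a x, x ∈ N → a ^ p * x ∈ N)
    (hN' : ∀ (c : R) (l : ℕ), l < p → algebraMap R[X] S (X ^ l) * algebraMap R S c ∈ N) :
    N = ⊤ := by
  have hpoly : ∀ f : R[X], algebraMap R[X] S f ∈ N := by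
    intro f
    induction f using Polynomial.induction_on' with
    | add a b ha hb => rw [map_add]; exact N.add_mem ha hb
    | monomial n c =>
      have h1 : (monomial n c : R[X]) = (X ^ (n / p)) ^ p * (X ^ (n % p) * C c) := by
        rw [← C_mul_X_pow_eq_monomial]
        conv_lhs => rw [← Nat.div_add_mod n p]
        ring
      rw [h1, map_mul, map_pow]
      apply hN
      rw [map_mul]
      have := hN' c (n % p) (Nat.mod_lt _ hp.out.pos)
      rwa [IsScalarTower.algebraMap_apply R R[X] S] at this
  rw [eq_top_iff]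
  intro x _
  obtain ⟨⟨h, g⟩, hx⟩ := IsLocalization.surj M x
  obtain ⟨u, hu⟩ := IsLocalization.map_units S g
  have h1 : x = (↑u⁻¹ : S) ^ p * algebraMap R[X] S (h * g ^ (p - 1)) := by
    rw [map_mul, map_pow, ← hx]
    simp only
    rw [← hu]
    have h2 : (u : S) ^ p = u * u ^ (p - 1) := by
      rw [← pow_succ', Nat.sub_add_cancel hp.out.pos]
    calc x = x * ((↑u⁻¹ : S) * u) ^ p := by rw [Units.inv_mul, one_pow, mul_one]
      _ = (↑u⁻¹ : S) ^ p * (x * (u : S) ^ p) := by rw [mul_pow]; ring
      _ = _ := by rw [h2]; ring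
  rw [h1]
  exact hN _ _ (hpoly _)

end main

theorem t_RT : S_RT.{u} := by
  classical
  intro p hp R _ _ _ _ _ _ hF
  let P : Ideal R[X] := (maximalIdeal R).map C
  have hP : P.IsPrime := Ideal.isPrime_map_C_of_isPrime
  let S := Localization.AtPrime P
  have hPnz : P.primeCompl ≤ nonZeroDivisors R[X] := by
    apply le_nonZeroDivisors_of_noZeroDivisors
    intro h
    exact h (Ideal.zero_mem _)
  have hdom : IsDomain S := IsLocalization.isDomain_of_le_nonZeroDivisors S hPnz
  have hinjX : Function.Injective (algebraMap R[X] S) := IsLocalization.injective S hPnz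
  have htower : ∀ c, algebraMap R S c = algebraMap R[X] S (C c) := fun c =>
    IsScalarTower.algebraMap_apply R R[X] S c
  have hinj : Function.Injective (algebraMap R S) := by
    intro a b hab
    rw [htower, htower] at hab
    exact C_injective (hinjX hab)
  have hchar : CharP S p := charP_of_injective_algebraMap hinj p
  have hmax : (maximalIdeal R).map (algebraMap R S) = maximalIdeal S := by
    rw [← IsLocalization.AtPrime.map_eq_maximalIdeal P S]
    change _ = Ideal.map (algebraMap R[X] S) ((maximalIdeal R).map C)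
    rw [Ideal.map_map]
    congr 1
  have hflat : Module.Flat R S := Module.Flat.trans R R[X] S
  have hloc : IsLocalHom (algebraMap R S) := by
    apply ((local_hom_TFAE (algebraMap R S)).out 0 2).2
    rw [hmax]
  have hff : Module.FaithfullyFlat R S := Module.FaithfullyFlat.of_flat_of_isLocalHom
  have hnoeth : IsNoetherianRing S := IsLocalization.isNoetherianRing P.primeCompl S inferInstance
  have hic : IsIntegrallyClosed S := isIntegrallyClosed_of_isLocalization S P.primeCompl hPnz
  have hq1 : p ^ 1 = p := pow_one p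
  have hpp := hp.out.pos
  -- extension
  have hext : ∀ (E : ℕ) (φ : FHom p E R), ∃ ψ : FHom p E S, ∀ (c : R) (l : ℕ),
      ψ.1 (algebraMap R[X] S (X ^ l) * algebraMap R S c) =
        if l % p ^ E = p ^ E - 1 then algebraMap R[X] S (X ^ (l / p ^ E)) * algebraMap R S (φ.1 c)
        else 0 := by
    intro E φ
    obtain ⟨ψ1, h1⟩ := exists_poly φ
    obtain ⟨ψ2, h2⟩ := exists_loc (B := S) P.primeCompl hPnz ψ1
    have hq : 0 < p ^ E := pow_pos hpp E
    refine ⟨ψ2, fun c l => ?_⟩
    rw [htower, ← map_mul, h2]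
    have h3 : ψ1.1 (X ^ l * C c) = if l % p ^ E = p ^ E - 1 then X ^ (l / p ^ E) * C (φ.1 c)
        else 0 := by
      ext j
      rw [h1, mul_comm, coeff_C_mul_X_pow]
      have hl := Nat.div_add_mod l (p ^ E)
      by_cases hj : p ^ E * j + (p ^ E - 1) = l
      · have h4 : l % p ^ E = p ^ E - 1 := by
          rw [← hj, Nat.mul_add_mod, Nat.mod_eq_of_lt (by omega)]
        have h5 : j = l / p ^ E := by
          rw [← hj, Nat.mul_add_div hq, Nat.div_eq_of_lt (by omega), add_zero]
        rw [if_pos hj, if_pos h4, mul_comm, coeff_C_mul_X_pow, if_pos h5]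
      · rw [if_neg hj, map_zero]
        split_ifs with h4
        · rw [mul_comm, coeff_C_mul_X_pow, if_neg]
          intro h5
          apply hj
          rw [h5, ← h4]
          exact hl
        · rw [coeff_zero]
    rw [h3]
    split_ifs with h4
    · rw [map_mul, htower]
    · rw [map_zero]
  -- uniqueness
  have huniq : ∀ ψ ψ' : FHom p 1 S, (∀ (c : R) (l : ℕ), l < p →
      ψ.1 (algebraMap R[X] S (X ^ l) * algebraMap R S c) =
      ψ'.1 (algebraMap R[X] S (X ^ l) * algebraMap R S c)) → ψ = ψ' := by
    intro ψ ψ' h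
    have := loc_ext (p := p) (R := R) (S := S) P.primeCompl (ψ.1 - ψ'.1).ker (by
      intro a x hx
      rw [AddMonoidHom.mem_ker, AddMonoidHom.sub_apply] at hx ⊢
      have e1 := ψ.2 a x
      have e2 := ψ'.2 a x
      rw [pow_one] at e1 e2
      rw [e1, e2, ← mul_sub, hx, mul_zero]) (by
      intro c l hl
      rw [AddMonoidHom.mem_ker, AddMonoidHom.sub_apply, h c l hl, sub_self])
    apply FHom_ext
    intro x
    have hx : x ∈ (ψ.1 - ψ'.1).ker := by rw [this]; trivial
    rw [AddMonoidHom.mem_ker, AddMonoidHom.sub_apply, sub_eq_zero] at hx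
    exact hx
  have hFS : IsFFinite p S := by
    apply ffinite_of
    obtain ⟨s, hs⟩ := hF
    refine ⟨⟨(Finset.range p ×ˢ s).image fun x => toFs p 1 S (algebraMap R[X] S (X ^ x.1) *
      algebraMap R S x.2), ?_⟩⟩
    set N := Submodule.span S (((Finset.range p ×ˢ s).image fun x => toFs p 1 S
      (algebraMap R[X] S (X ^ x.1) * algebraMap R S x.2) : Finset (Fs p 1 S)) :
        Set (Fs p 1 S)) with hNdef
    have key := loc_ext (p := p) (R := R) (S := S) P.primeCompl
      (N.toAddSubgroup.comap (toFs p 1 S)) (by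
        intro a x hx
        have h1 : toFs p 1 S x ∈ N := hx
        have h2 : toFs p 1 S (a ^ p * x) ∈ N := by
          have := N.smul_mem a h1
          rwa [smul_Fs, pow_one] at this
        exact h2) (by
        intro c l hl
        obtain ⟨a, ha⟩ := hs c
        have h2 : toFs p 1 S (algebraMap R[X] S (X ^ l) * algebraMap R S c) ∈ N := by
          rw [ha, map_sum, Finset.mul_sum, map_sum]
          apply N.sum_mem
          intro y hy
          have h3 : algebraMap R[X] S (X ^ l) * algebraMap R S (a y ^ p * y) =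
            (algebraMap R S (a y)) ^ p ^ 1 * (algebraMap R[X] S (X ^ l) * algebraMap R S y) := by
            rw [(algebraMap R S).map_mul, (algebraMap R S).map_pow, pow_one, mul_left_comm]
          rw [h3, ← smul_Fs]
          apply N.smul_mem
          apply Submodule.subset_span
          rw [Finset.coe_image]
          exact ⟨(l, y), by simp [hl, hy], rfl⟩
        exact h2)
    rw [eq_top_iff]
    intro x _
    have : ofFs p 1 S x ∈ N.toAddSubgroup.comap (toFs p 1 S) := by rw [key]; trivial
    exact this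
  have hinf : Infinite (ResidueField S) := by
    apply Infinite.of_injective (fun n : ℕ => residue S (algebraMap R[X] S (X ^ n)))
    intro i j hij
    by_contra hne
    simp only at hij
    rw [← sub_eq_zero, ← map_sub, residue_eq_zero_iff, ← map_sub,
      IsLocalization.AtPrime.to_map_mem_maximal_iff S P] at hij
    have h1 := Ideal.mem_map_C_iff.1 hij i
    rw [coeff_sub, coeff_X_pow, coeff_X_pow, if_pos rfl, if_neg hne, sub_zero] at h1
    exact (Ideal.ne_top_iff_one _).1 (maximalIdeal.isMaximal R).ne_top h1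
  refine ⟨S, inferInstance, hdom, inferInstance, inferInstance, hnoeth, hic, hchar, hFS, hinf,
    hff, hmax, ?_, ?_⟩
  · choose ext hext' using fun φ : FHom p 1 R => hext 1 φ
    have hext1 : ∀ (φ : FHom p 1 R) (c : R) (l : ℕ),
      (ext φ).1 (algebraMap R[X] S (X ^ l) * algebraMap R S c) =
        if l % p = p - 1 then algebraMap R[X] S (X ^ (l / p)) * algebraMap R S (φ.1 c)
        else 0 := by
      intro φ c l
      have := hext' φ c l
      simp only [pow_one] at this
      exact this
    have hadd : ∀ φ φ', ext (φ + φ') = ext φ + ext φ' := by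
      intro φ φ'
      apply huniq
      intro c l hl
      change _ = (ext φ).1 _ + (ext φ').1 _
      rw [hext1, hext1, hext1]
      split_ifs
      · change _ * algebraMap R S (φ.1 c + φ'.1 c) = _
        rw [map_add, mul_add]
      · rw [add_zero]
    refine ⟨AddMonoidHom.mk' ext hadd, algebraMap R[X] S (X ^ (p - 1)), ?_, ?_, ?_⟩
    · intro c φ
      apply huniq
      intro r l hl
      change (ext (c • φ)).1 _ = (algebraMap R S c • ext φ).1 _
      have h3 : algebraMap R S c * (algebraMap R[X] S (X ^ l) * algebraMap R S r) =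
          algebraMap R[X] S (X ^ l) * algebraMap R S (c * r) := by
        rw [(algebraMap R S).map_mul]; ring
      rw [FHom_smul_apply, h3, hext1, hext1, FHom_smul_apply]
    · intro φ r
      change (ext φ).1 _ = _
      rw [hext1, if_pos (Nat.mod_eq_of_lt (by omega)), Nat.div_eq_of_lt (by omega), pow_zero,
        map_one, one_mul]
    · rw [eq_top_iff]
      intro ψ _
      have hfac : ∀ i : ℕ, ∃ (k : ℕ) (g : Fin k → FHom p 1 R) (c : Fin k → S),
          ∀ x, ψ.1 (algebraMap R[X] S (X ^ i) * algebraMap R S x) =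
            ∑ j, c j * algebraMap R S ((g j).1 x) := by
        intro i
        obtain ⟨k, g, c, hc⟩ := exists_fac hF
          ((ψ.1.comp (AddMonoidHom.mulLeft (algebraMap R[X] S (X ^ i)))).comp
            (algebraMap R S).toAddMonoidHom) (by
            intro a x
            change ψ.1 (algebraMap R[X] S (X ^ i) * algebraMap R S (a ^ p * x)) =
              algebraMap R S a * ψ.1 (algebraMap R[X] S (X ^ i) * algebraMap R S x)
            have := ψ.2 (algebraMap R S a) (algebraMap R[X] S (X ^ i) * algebraMap R S x)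
            rw [pow_one] at this
            rw [← this, (algebraMap R S).map_mul, (algebraMap R S).map_pow, mul_left_comm])
        exact ⟨k, g, c, hc⟩
      choose k g c hc using hfac
      have hψ : ψ = ∑ i ∈ Finset.range p, ∑ j, ((c i j) ^ p *
          algebraMap R[X] S (X ^ (p - 1 - i))) • ext (g i j) := by
        apply huniq
        intro r l hl
        have h1 : (∑ i ∈ Finset.range p, ∑ j, ((c i j) ^ p *
            algebraMap R[X] S (X ^ (p - 1 - i))) • ext (g i j)).1
              (algebraMap R[X] S (X ^ l) * algebraMap R S r) =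
            ∑ i ∈ Finset.range p, ∑ j, (((c i j) ^ p *
            algebraMap R[X] S (X ^ (p - 1 - i))) • ext (g i j)).1
              (algebraMap R[X] S (X ^ l) * algebraMap R S r) := by
          rw [AddSubgroup.val_finset_sum, AddMonoidHom.finset_sum_apply]
          apply Finset.sum_congr rfl
          intro i _
          rw [AddSubgroup.val_finset_sum, AddMonoidHom.finset_sum_apply]
        rw [h1, Finset.sum_eq_single l]
        · rw [hc]
          apply Finset.sum_congr rfl
          intro j _
          rw [FHom_smul_apply]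
          have h2 : c l j ^ p * algebraMap R[X] S (X ^ (p - 1 - l)) *
              (algebraMap R[X] S (X ^ l) * algebraMap R S r) =
              (c l j) ^ p ^ 1 * (algebraMap R[X] S (X ^ (p - 1)) * algebraMap R S r) := by
            have h3 : (X : R[X]) ^ (p - 1) = X ^ (p - 1 - l) * X ^ l := by
              rw [← pow_add]; congr 1; omega
            rw [h3, (algebraMap R[X] S).map_mul, pow_one]; ring
          rw [h2, (ext (g l j)).2, hext1, if_pos (Nat.mod_eq_of_lt (by omega)),
            Nat.div_eq_of_lt (by omega), pow_zero, map_one, one_mul]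
        · intro i hi hil
          rw [Finset.mem_range] at hi
          apply Finset.sum_eq_zero
          intro j _
          rw [FHom_smul_apply]
          have h2 : c i j ^ p * algebraMap R[X] S (X ^ (p - 1 - i)) *
              (algebraMap R[X] S (X ^ l) * algebraMap R S r) =
              (c i j) ^ p ^ 1 * (algebraMap R[X] S (X ^ (p - 1 - i + l)) *
                algebraMap R S r) := by
            rw [pow_add, (algebraMap R[X] S).map_mul, pow_one]; ring
          rw [h2, (ext (g i j)).2, hext1, if_neg, mul_zero]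
          intro h4
          rcases lt_or_gt_of_ne hil with h5 | h5
          · -- i < l
            have h6 : p - 1 - i + l = p * 1 + (l - i - 1) := by omega
            rw [h6, Nat.mul_add_mod, Nat.mod_eq_of_lt (by omega)] at h4
            omega
          · rw [Nat.mod_eq_of_lt (by omega)] at h4
            omega
        · intro hl'
          exact absurd (Finset.mem_range.2 hl) hl'
      rw [hψ]
      apply Submodule.sum_mem
      intro i _
      apply Submodule.sum_mem
      intro j _
      apply Submodule.smul_mem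
      apply Submodule.subset_span
      exact ⟨g i j, rfl⟩
  · intro E φ
    obtain ⟨ψ, hψ⟩ := hext E φ
    have hq : 0 < p ^ E := pow_pos hpp E
    refine ⟨ψ, algebraMap R[X] S (X ^ (p ^ E - 1)), fun r => ?_⟩
    rw [hψ, if_pos (Nat.mod_eq_of_lt (by omega)), Nat.div_eq_of_lt (by omega), pow_zero,
      map_one, one_mul]

end Run7.h892.P889
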