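import Pool.Agent.Run7.h892.P889.Base

set_option autoImplicit false
set_option linter.unusedSimpArgs false
set_option linter.unusedVariables false
set_option linter.unusedSectionVars false
set_option linter.deprecated false

namespace Run7.h892.P889

open Run7.h889 IsLocalRing

universe u v

section pre

variable {A : Type u} [CommRing A]

lemma mem_smul_top_pi {n : ℕ} (I : Ideal A) (x : Fin n → A) :
    x ∈ (I • ⊤ : Submodule A (Fin n → A)) ↔ ∀ i, x i ∈ I := by
  classical
  constructor
  · intro h i
    induction h using Submodule.smul_induction_on' with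
    | smul r hr y _ => exact I.mul_mem_right _ hr
    | add x _ y _ hx hy => exact I.add_mem hx hy
  · intro h
    have : x = ∑ i, x i • Pi.single (M := fun _ => A) i (1 : A) := by
      ext j
      simp [Finset.sum_apply, Pi.single_apply]
    rw [this]
    exact Submodule.sum_mem _ fun i _ => Submodule.smul_mem_smul (h i) trivial

lemma precomplete_pi (I : Ideal A) [IsPrecomplete I A] (n : ℕ) :
    IsPrecomplete I (Fin n → A) := by
  constructor
  intro f hf
  have h1 : ∀ i, ∃ L : A, ∀ m, f m i ≡ L [SMOD (I ^ m • ⊤ : Submodule A A)] := by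
    intro i
    apply IsPrecomplete.prec inferInstance
    intro m k hmk
    have := hf hmk
    rw [SModEq.sub_mem] at this ⊢
    rw [mem_smul_top_pi] at this
    rw [smul_eq_mul, Ideal.mul_top]
    exact this i
  choose L hL using h1
  refine ⟨L, fun m => ?_⟩
  rw [SModEq.sub_mem, mem_smul_top_pi]
  intro i
  have := hL i m
  rw [SModEq.sub_mem, smul_eq_mul, Ideal.mul_top] at this
  exact this

lemma eq_zero_of_mem (I : Ideal A) [IsHausdorff I A] (x : A) (h : ∀ n, x ∈ I ^ n) : x = 0 := by
  apply IsHausdorff.haus (I := I) (M := A) inferInstance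
  intro n
  rw [SModEq.zero, smul_eq_mul, Ideal.mul_top]
  exact h n

variable {p E : ℕ} [hp : Fact p.Prime] [CharP A p]

lemma FHom_map_mem (φ : FHom p E A) (I : Ideal A) (x : A)
    (hx : x ∈ I.map (iterateFrobenius A p E)) (c : A) : φ.1 (c * x) ∈ I := by
  induction hx using Submodule.span_induction generalizing c with
  | mem y hy =>
    obtain ⟨a, ha, rfl⟩ := hy
    rw [iterateFrobenius_def, mul_comm, φ.2]
    exact I.mul_mem_right _ ha
  | zero => rw [mul_zero, map_zero]; exact I.zero_mem
  | add x y _ _ hx hy => rw [mul_add, map_add]; exact I.add_mem (hx c) (hy c)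
  | smul r x _ hx =>
    rw [smul_eq_mul, ← mul_assoc]
    exact hx _

omit hp [CharP A p] in
lemma exists_pow_le_map [Fact p.Prime] [CharP A p] [IsNoetherianRing A] (I : Ideal A) (E : ℕ) :
    ∃ k, I ^ k ≤ I.map (iterateFrobenius A p E) := by
  apply Ideal.exists_pow_le_of_le_radical_of_fg
  · intro x hx
    exact ⟨p ^ E, Ideal.mem_map_of_mem (iterateFrobenius A p E) hx⟩
  · exact IsNoetherian.noetherian I

lemma exists_cont [IsNoetherianRing A] (φ : FHom p E A) (I : Ideal A) (n : ℕ) :
    ∃ N, ∀ x ∈ I ^ N, φ.1 x ∈ I ^ n := by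
  obtain ⟨k, hk⟩ := exists_pow_le_map (p := p) (I ^ n) E
  refine ⟨n * k, fun x hx => ?_⟩
  rw [pow_mul] at hx
  have := FHom_map_mem φ (I ^ n) x (hk hx) 1
  rwa [one_mul] at this

end pre

section

variable {p : ℕ} [hp : Fact p.Prime] {R S : Type u} [CommRing R] [CommRing S] [IsLocalRing R]
  [IsLocalRing S] [Algebra R S] [CharP R p] [CharP S p]

omit hp [CharP R p] [CharP S p] in
lemma mem_pow_of (h : CExt R S) (n : ℕ) (r : R) (hr : algebraMap R S r ∈ maximalIdeal S ^ n) :
    r ∈ maximalIdeal R ^ n := by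
  have := h.ff
  rw [← h.max_eq, ← Ideal.map_pow] at hr
  have := Ideal.comap_map_eq_self_of_faithfullyFlat (B := S) (maximalIdeal R ^ n)
  rw [← this]
  exact hr

omit hp [CharP R p] [CharP S p] in
lemma map_mem_pow (h : CExt R S) (n : ℕ) (r : R) (hr : r ∈ maximalIdeal R ^ n) :
    algebraMap R S r ∈ maximalIdeal S ^ n := by
  rw [← h.max_eq, ← Ideal.map_pow]
  exact Ideal.mem_map_of_mem _ hr

/-- extension by continuity -/
theorem exists_ext (h : CExt R S) {E : ℕ} (φ : FHom p E R) :
    ∃ ψ : FHom p E S, ∀ r, ψ.1 (algebraMap R S r) = algebraMap R S (φ.1 r) := by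
  classical
  have hnR := h.noethR
  have hcS := h.complete
  set M := maximalIdeal S with hM
  choose N hN using exists_cont φ (maximalIdeal R)
  have hφ : ∀ n r r', algebraMap R S r - algebraMap R S r' ∈ M ^ N n →
      algebraMap R S (φ.1 r) - algebraMap R S (φ.1 r') ∈ M ^ n := by
    intro n r r' h1
    rw [← map_sub] at h1 ⊢
    rw [← map_sub]
    exact map_mem_pow h n _ (hN n _ (mem_pow_of h _ _ h1))
  let P : S → S → Prop := fun s L => ∀ n r, s - algebraMap R S r ∈ M ^ N n →
    L - algebraMap R S (φ.1 r) ∈ M ^ n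
  have hex : ∀ s, ∃ L, P s L := by
    intro s
    let K : ℕ → ℕ := fun n => ∑ i ∈ Finset.range (n + 1), N i
    have hK : ∀ m n, m ≤ n → N m ≤ K n := by
      intro m n hmn
      exact Finset.single_le_sum (f := N) (fun _ _ => Nat.zero_le _)
        (Finset.mem_range.2 (Nat.lt_succ_of_le hmn))
    choose r hr using fun n => h.dense (K n) s
    have hr' : ∀ m n, m ≤ n → s - algebraMap R S (r n) ∈ M ^ N m := fun m n hmn =>
      Ideal.pow_le_pow_right (hK m n hmn) (hr n)
    obtain ⟨L, hL⟩ := IsPrecomplete.prec (I := M) (M := S) inferInstance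
      (f := fun n => algebraMap R S (φ.1 (r n))) (by
        intro m n hmn
        rw [SModEq.sub_mem, smul_eq_mul, Ideal.mul_top]
        apply hφ
        have := Ideal.sub_mem _ (hr' m n hmn) (hr' m m le_rfl)
        have h2 : s - algebraMap R S (r n) - (s - algebraMap R S (r m)) =
          algebraMap R S (r m) - algebraMap R S (r n) := by ring
        rwa [h2] at this)
    refine ⟨L, fun n r' hr2 => ?_⟩
    have h1 := hL n
    rw [SModEq.sub_mem, smul_eq_mul, Ideal.mul_top] at h1
    have h3 := hφ n (r n) r' (by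
      have := Ideal.sub_mem _ hr2 (hr' n n le_rfl)
      have h2 : s - algebraMap R S r' - (s - algebraMap R S (r n)) =
          algebraMap R S (r n) - algebraMap R S r' := by ring
      rwa [h2] at this)
    have h4 := Ideal.sub_mem _ h3 h1
    have h2 : algebraMap R S (φ.1 (r n)) - algebraMap R S (φ.1 r') -
      (algebraMap R S (φ.1 (r n)) - L) = L - algebraMap R S (φ.1 r') := by ring
    rwa [h2] at h4
  have huniq : ∀ s L L', P s L → P s L' → L = L' := by
    intro s L L' h1 h2
    rw [← sub_eq_zero]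
    apply eq_zero_of_mem M
    intro n
    obtain ⟨r, hr⟩ := h.dense (N n) s
    have := Ideal.sub_mem _ (h1 n r hr) (h2 n r hr)
    rwa [sub_sub_sub_cancel_right] at this
  choose ψ hψ using hex
  have hR : ∀ r, P (algebraMap R S r) (algebraMap R S (φ.1 r)) := fun r n r' h1 => hφ n r r' h1
  have hadd : ∀ s s' L L', P s L → P s' L' → P (s + s') (L + L') := by
    intro s s' L L' h1 h2 n r hr
    obtain ⟨r1, hr1⟩ := h.dense (N n) s
    have h3 := h1 n r1 hr1
    have h4 := h2 n (r - r1) (by
      have := Ideal.sub_mem _ hr hr1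
      rw [map_sub]
      have h2 : s + s' - algebraMap R S r - (s - algebraMap R S r1) =
        s' - (algebraMap R S r - algebraMap R S r1) := by ring
      rwa [h2] at this)
    have h5 := Ideal.add_mem _ h3 h4
    rw [map_sub, map_sub] at h5
    have h6 : L - algebraMap R S (φ.1 r1) + (L' - (algebraMap R S (φ.1 r) -
      algebraMap R S (φ.1 r1))) = L + L' - algebraMap R S (φ.1 r) := by ring
    rwa [h6] at h5
  have hmul : ∀ t s L, P s L → P (t ^ p ^ E * s) (t * L) := by
    intro t s L h1 n r hr
    obtain ⟨s1, hs1⟩ := h.dense (N n) s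
    obtain ⟨t1, ht1⟩ := h.dense (max n (N n)) t
    have ht2 : t - algebraMap R S t1 ∈ M ^ n := Ideal.pow_le_pow_right (le_max_left _ _) ht1
    have ht3 : t - algebraMap R S t1 ∈ M ^ N n := Ideal.pow_le_pow_right (le_max_right _ _) ht1
    have h3 := h1 n s1 hs1
    have h4 : t ^ p ^ E * s - algebraMap R S (t1 ^ p ^ E * s1) ∈ M ^ N n := by
      obtain ⟨c, hc⟩ := sub_dvd_pow_sub_pow t (algebraMap R S t1) (p ^ E)
      have h5 : t ^ p ^ E * s - algebraMap R S (t1 ^ p ^ E * s1) =
          t ^ p ^ E * (s - algebraMap R S s1) +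
          (t ^ p ^ E - algebraMap R S t1 ^ p ^ E) * algebraMap R S s1 := by
        rw [map_mul, map_pow]; ring
      rw [h5, hc]
      exact Ideal.add_mem _ (Ideal.mul_mem_left _ _ hs1)
        (Ideal.mul_mem_right _ _ (Ideal.mul_mem_right _ _ ht3))
    have h6 := hφ n (t1 ^ p ^ E * s1) r (by
      have := Ideal.sub_mem _ hr h4
      have h2 : t ^ p ^ E * s - algebraMap R S r - (t ^ p ^ E * s -
        algebraMap R S (t1 ^ p ^ E * s1)) = algebraMap R S (t1 ^ p ^ E * s1) -
          algebraMap R S r := by ring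
      rwa [h2] at this)
    rw [φ.2, map_mul] at h6
    have h7 : t * L - algebraMap R S (φ.1 r) = t * (L - algebraMap R S (φ.1 s1)) +
      (t - algebraMap R S t1) * algebraMap R S (φ.1 s1) +
      (algebraMap R S t1 * algebraMap R S (φ.1 s1) - algebraMap R S (φ.1 r)) := by ring
    rw [h7]
    exact Ideal.add_mem _ (Ideal.add_mem _ (Ideal.mul_mem_left _ _ h3)
      (Ideal.mul_mem_right _ _ ht2)) h6
  have h0 : ψ 0 = 0 := by
    apply huniq 0 _ _ (hψ 0)
    have := hR 0
    rwa [map_zero, map_zero, map_zero] at this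
  refine ⟨⟨⟨⟨ψ, h0⟩, fun s s' => ?_⟩, fun t s => ?_⟩, fun r => ?_⟩
  · exact huniq _ _ _ (hψ _) (hadd _ _ _ _ (hψ _) (hψ _))
  · exact huniq _ _ _ (hψ _) (hmul _ _ _ (hψ _))
  · exact huniq _ _ _ (hψ _) (hR r)

/-- `S` is generated over `S^p` by generators of `R` over `R^p` -/
theorem gen_S (h : CExt R S) (s : Finset R)
    (hs : ∀ x : R, ∃ a : R → R, x = ∑ y ∈ s, a y ^ p * y) (x : S) :
    ∃ a : R → S, x = ∑ y ∈ s, a y ^ p * algebraMap R S y := by
  classical
  have hnS := h.noethS
  have hcS := h.complete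
  set M := maximalIdeal S with hM
  obtain ⟨n, ⟨e⟩⟩ : ∃ n, Nonempty (Fin n ≃ s) := ⟨s.card, ⟨s.equivFin.symm⟩⟩
  have hpre := precomplete_pi M n
  let f : (Fin n → S) →ₗ[S] Fs p 1 S :=
    { toFun := fun c => ∑ i, c i • toFs p 1 S (algebraMap R S (e i))
      map_add' := fun c c' => by
        simp only [Pi.add_apply, add_smul, Finset.sum_add_distrib]
      map_smul' := fun t c => by
        simp only [Pi.smul_apply, smul_eq_mul, mul_smul, Finset.smul_sum, RingHom.id_apply] }
  have hf : ∀ c, f c = ∑ i, c i • toFs p 1 S (algebraMap R S (e i)) := fun c => rfl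
  have hof : ∀ c, ofFs p 1 S (f c) = ∑ i, c i ^ p * algebraMap R S (e i) := by
    intro c
    rw [hf, map_sum]
    apply Finset.sum_congr rfl
    intro i _
    rw [of_smul, pow_one]
    rfl
  -- membership
  have hmem : ∀ (I : Ideal S) (x : Fs p 1 S), x ∈ (I • ⊤ : Submodule S (Fs p 1 S)) →
      ofFs p 1 S x ∈ I := by
    intro I x hx
    induction hx using Submodule.smul_induction_on' with
    | smul r hr y _ =>
      rw [of_smul, pow_one]
      exact I.mul_mem_right _ (Ideal.pow_mem_of_mem I hr p hp.out.pos)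
    | add x _ y _ hx hy => rw [map_add]; exact I.add_mem hx hy
  have hmem2 : ∀ (I : Ideal S) (x : S), x ∈ I.map (iterateFrobenius S p 1) →
      toFs p 1 S x ∈ (I • ⊤ : Submodule S (Fs p 1 S)) := by
    intro I x hx
    have key : ∀ c : S, toFs p 1 S (c * x) ∈ (I • ⊤ : Submodule S (Fs p 1 S)) := by
      induction hx using Submodule.span_induction with
      | mem y hy =>
        obtain ⟨a, ha, rfl⟩ := hy
        intro c
        rw [iterateFrobenius_def, mul_comm, ← smul_Fs]
        exact Submodule.smul_mem_smul ha trivial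
      | zero => intro c; rw [mul_zero, map_zero]; exact Submodule.zero_mem _
      | add x y _ _ hx hy =>
        intro c; rw [mul_add, map_add]; exact Submodule.add_mem _ (hx c) (hy c)
      | smul r x _ hx =>
        intro c
        rw [smul_eq_mul, ← mul_assoc]
        exact hx _
    have := key 1
    rwa [one_mul] at this
  have hHaus : IsHausdorff M (Fs p 1 S) := by
    constructor
    intro x hx
    have : ofFs p 1 S x = 0 := by
      apply eq_zero_of_mem M
      intro n
      apply hmem
      have := hx n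
      rwa [SModEq.zero] at this
    exact this
  have hsurj : Function.Surjective f := by
    apply surjective_of_mkQ_comp_surjective (I := M)
    intro y
    obtain ⟨y, rfl⟩ := Submodule.mkQ_surjective _ y
    obtain ⟨k, hk⟩ := exists_pow_le_map (p := p) M 1
    obtain ⟨r, hr⟩ := h.dense k (ofFs p 1 S y)
    obtain ⟨a, ha⟩ := hs r
    refine ⟨fun i => algebraMap R S (a (e i)), ?_⟩
    rw [LinearMap.comp_apply, ← sub_eq_zero, ← map_sub, Submodule.mkQ_apply,
      Submodule.Quotient.mk_eq_zero]
    have h1 : f (fun i => algebraMap R S (a (e i))) = toFs p 1 S (algebraMap R S r) := by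
      have h2 : ofFs p 1 S (f (fun i => algebraMap R S (a (e i)))) = algebraMap R S r := by
        rw [hof]
        conv_rhs => rw [ha]
        rw [map_sum, ← Finset.sum_coe_sort s]
        rw [← e.sum_comp]
        apply Finset.sum_congr rfl
        intro i _
        rw [map_mul, map_pow]
      exact h2
    rw [h1]
    have h3 := hmem2 M _ (hk hr)
    rw [map_sub] at h3
    have h4 := Submodule.neg_mem _ h3
    rw [neg_sub] at h4
    exact h4
  obtain ⟨c, hc⟩ := hsurj (toFs p 1 S x)
  have h1 : ofFs p 1 S (f c) = x := by rw [hc]; rfl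
  rw [hof] at h1
  refine ⟨fun y => if hy : y ∈ s then c (e.symm ⟨y, hy⟩) else 0, ?_⟩
  rw [← h1, ← Finset.sum_coe_sort s, ← e.sum_comp]
  apply Finset.sum_congr rfl
  intro i _
  simp

theorem t_CE : S_CE.{u} := by
  classical
  intro p hp R S _ _ _ _ _ _ _ h hF
  have hnR := h.noethR
  have hff := h.ff
  obtain ⟨s, hs⟩ := hF
  have hgen := gen_S h s hs
  refine ⟨⟨⟨s, hs, hgen⟩, fun E φ => exists_ext h φ⟩, ?_⟩
  -- uniqueness of extensions
  have huniq : ∀ ψ ψ' : FHom p 1 S, (∀ r, ψ.1 (algebraMap R S r) = ψ'.1 (algebraMap R S r)) →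
      ψ = ψ' := by
    intro ψ ψ' h1
    apply FHom_ext
    intro x
    obtain ⟨a, ha⟩ := hgen x
    rw [ha, map_sum, map_sum]
    apply Finset.sum_congr rfl
    intro y _
    have e1 := ψ.2 (a y) (algebraMap R S y)
    have e2 := ψ'.2 (a y) (algebraMap R S y)
    rw [pow_one] at e1 e2
    rw [e1, e2, h1]
  choose ext hext using fun φ : FHom p 1 R => exists_ext h φ
  have hadd : ∀ φ φ', ext (φ + φ') = ext φ + ext φ' := by
    intro φ φ'
    apply huniq
    intro r
    rw [hext]
    change algebraMap R S (φ.1 r + φ'.1 r) = (ext φ).1 (algebraMap R S r) +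
      (ext φ').1 (algebraMap R S r)
    rw [hext, hext, map_add]
  refine ⟨AddMonoidHom.mk' ext hadd, 1, ?_, ?_, ?_⟩
  · intro c φ
    apply huniq
    intro r
    change (ext (c • φ)).1 _ = (algebraMap R S c • ext φ).1 _
    rw [hext, FHom_smul_apply, FHom_smul_apply, ← map_mul, hext]
  · intro φ r
    rw [one_mul]
    exact hext φ r
  · rw [eq_top_iff]
    intro ψ _
    obtain ⟨k, g, c, hc⟩ := exists_fac ⟨s, hs⟩ (ψ.1.comp (algebraMap R S).toAddMonoidHom) (by
      intro a x
      have := ψ.2 (algebraMap R S a) (algebraMap R S x)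
      rw [pow_one] at this
      change ψ.1 (algebraMap R S (a ^ p * x)) = _
      rw [map_mul, map_pow, this]
      rfl)
    have : ψ = ∑ i, (c i ^ p) • ext (g i) := by
      apply huniq
      intro r
      have h1 : (∑ i, (c i ^ p) • ext (g i)).1 (algebraMap R S r) =
          ∑ i, ((c i ^ p) • ext (g i)).1 (algebraMap R S r) := by
        rw [AddSubgroup.val_finset_sum, AddMonoidHom.finset_sum_apply]
      rw [h1]
      have h2 := hc r
      change ψ.1 (algebraMap R S r) = _ at h2
      rw [h2]
      apply Finset.sum_congr rfl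
      intro i _
      have h3 := (ext (g i)).2 (c i) (algebraMap R S r)
      rw [pow_one] at h3
      rw [FHom_smul_apply, h3, hext]
    rw [this]
    apply Submodule.sum_mem
    intro i _
    apply Submodule.smul_mem
    apply Submodule.subset_span
    exact ⟨g i, rfl⟩

end

end Run7.h892.P889
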